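import Mathlib
import Pool.Agent.Helper27.AD.Final
import Pool.Agent.Helper83.AD.CNVB

/-!
# Sections over number fields along which one function is adelic

`k` is a number field, `K/k` a regular function field of one variable, `Ω` an algebraic closure of `K`,
`kb` the algebraic closure of `k` in `Ω`, `s` a section of `Gal(Ω/K) → Gal(kb/k)`.
-/

set_option autoImplicit false

namespace Pool.Agent.Results.MP_8312c9_nt.AdelicSections

/-- `s` is a section of the birational Galois group of `K/k` (the hypotheses of S17615). -/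
def IsSection {k K kb Ω : Type} [Field k] [Field K] [Field kb] [Field Ω] [Algebra k kb] [Algebra kb Ω]
    [Algebra K Ω] (s : (kb ≃ₐ[k] kb) →* (Ω ≃ₐ[K] Ω)) : Prop :=
  Continuous s ∧ ∀ (g : kb ≃ₐ[k] kb) (x : kb), s g (algebraMap kb Ω x) = algebraMap kb Ω (g x)

/-- `s` is geometric and arises from a unique rational point (the conclusion of S17615). -/
def IsGeometric {k K kb Ω : Type} [Field k] [Field K] [Field kb] [Field Ω] [Algebra k K] [Algebra k kb]
    [Algebra K Ω] (s : (kb ≃ₐ[k] kb) →* (Ω ≃ₐ[K] Ω)) : Prop :=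
  ∃! O : ValuationSubring K,
    O ≠ ⊤ ∧ (∀ c : k, algebraMap k K c ∈ O) ∧
    (∀ a ∈ O, ∃ c : k, O.valuation (a - algebraMap k K c) < 1) ∧
    ∃ W : ValuationSubring Ω, W.comap (algebraMap K Ω) = O ∧
      ∀ (g : kb ≃ₐ[k] kb) (x : Ω), (s g x ∈ W ↔ x ∈ W)

/-- `x` is integral at all finite places along `s`: for every prime `l` and every embedding `ι` of `kb`
into `ℂ_l`, some valuation ring `W` of `Ω` lies above the absolute value `‖ι ·‖` of `kb`, is stable under
`s g` for all `g` in the decomposition group of this absolute value, and contains `x`. -/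
def Integral {k K kb Ω : Type} [Field k] [Field K] [Field kb] [Field Ω] [Algebra k kb] [Algebra kb Ω]
    [Algebra K Ω] (s : (kb ≃ₐ[k] kb) →* (Ω ≃ₐ[K] Ω)) (x : Ω) : Prop :=
  ∀ (l : ℕ) [Fact l.Prime] (ι : kb →+* ℂ_[l]), ∃ W : ValuationSubring Ω,
    (∀ c : kb, algebraMap kb Ω c ∈ W ↔ ‖ι c‖ ≤ 1) ∧
    (∀ g : kb ≃ₐ[k] kb, (∀ c : kb, ‖ι (g c)‖ = ‖ι c‖) → ∀ z : Ω, s g z ∈ W ↔ z ∈ W) ∧ x ∈ W

/-- `x` is a finite adele along `s`: some positive integer multiple of `x` is integral at all finite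
places along `s`. -/
def FinAdele {k K kb Ω : Type} [Field k] [Field K] [Field kb] [Field Ω] [Algebra k kb] [Algebra kb Ω]
    [Algebra K Ω] (s : (kb ≃ₐ[k] kb) →* (Ω ≃ₐ[K] Ω)) (x : Ω) : Prop :=
  ∃ m : ℕ, 0 < m ∧ Integral s ((m : Ω) * x)

/-- `x` is finite at all real places along `s`: for every embedding `ι` of `kb` into `ℂ` and every
`τ ∈ Gal(kb/k)` which is complex conjugation under `ι`, `N² - x²` is a square in the (real closed) fixed
field of `s τ` for some natural number `N`. -/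
def Bounded {k K kb Ω : Type} [Field k] [Field K] [Field kb] [Field Ω] [Algebra k kb]
    [Algebra K Ω] (s : (kb ≃ₐ[k] kb) →* (Ω ≃ₐ[K] Ω)) (x : Ω) : Prop :=
  ∀ (ι : kb →+* ℂ) (τ : kb ≃ₐ[k] kb), (∀ z : kb, ι (τ z) = (starRingEnd ℂ) (ι z)) →
    ∃ (N : ℕ) (y : Ω), s τ y = y ∧ y ^ 2 = (N : Ω) ^ 2 - x ^ 2

/-- Let `k` be a number field, `K/k` a regular function field of one variable, `s` a section; let `m = 0`
if `k` is totally real, and `m = [k : k₁]` if `k₁` is a subfield of `k` with finite unit group (`ℚ` or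
imaginary quadratic). Equivalent: (1) `s` is geometric (from a unique rational point); (2) some
nonconstant `f ∈ K` is a finite adele along `s`, bounded at the real places if `m = 0`, and `1/(f - c)` is
a finite adele along `s` for `m` distinct `c ∈ k₁`; (3) the same for some nonconstant `f` fixed by `s`. -/
theorem result (k : Type) [Field k] [NumberField k]
    (k₁ : Type) [Field k₁] [NumberField k₁] [Algebra k₁ k] [FiniteDimensional k₁ k]
    (m : ℕ) (hm : (NumberField.IsTotallyReal k ∧ m = 0) ∨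
      (Finite (NumberField.RingOfIntegers k₁)ˣ ∧ m = Module.finrank k₁ k))
    (K : Type) [Field K] [Algebra k K] (_hK : (⊤ : IntermediateField k K).FG)
    (htr : ∃ t : K, Transcendental k t ∧ Algebra.IsAlgebraic (IntermediateField.adjoin k {t}) K)
    (_hreg : ∀ x : K, IsAlgebraic k x → x ∈ (algebraMap k K).range)
    (kb Ω : Type) [Field kb] [Field Ω] [Algebra k kb] [Algebra kb Ω] [Algebra k Ω] [Algebra K Ω]
    [IsScalarTower k kb Ω] [IsScalarTower k K Ω] [IsAlgClosure k kb] [IsAlgClosure K Ω]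
    (s : (kb ≃ₐ[k] kb) →* (Ω ≃ₐ[K] Ω)) (hs : IsSection s) :
    List.TFAE [
      IsGeometric s,
      ∃ f : K, f ∉ (algebraMap k K).range ∧ FinAdele s (algebraMap K Ω f) ∧
        (m = 0 → Bounded s (algebraMap K Ω f)) ∧ ∃ A : Finset k₁, A.card = m ∧
          ∀ c ∈ A, FinAdele s (algebraMap K Ω f - algebraMap k Ω (algebraMap k₁ k c))⁻¹,
      ∃ f : Ω, f ∉ (algebraMap k Ω).range ∧ (∀ g, s g f = f) ∧ FinAdele s f ∧
        (m = 0 → Bounded s f) ∧ ∃ A : Finset k₁, A.card = m ∧
          ∀ c ∈ A, FinAdele s (f - algebraMap k Ω (algebraMap k₁ k c))⁻¹] := by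
  have : IsAlgClosed Ω := IsAlgClosure.isAlgClosed K
  have : Algebra.IsAlgebraic K Ω := IsAlgClosure.isAlgebraic
  tfae_have 1 → 2 := by
    intro hG
    obtain ⟨f, hf, h1, h2, h3⟩ := Pool.Agent.Helper27.AD.fin_conv
      (Pool.Agent.Helper27.AD.st_CNVB Pool.Agent.Helper14.BSC.all_HEN) k₁ s hs m hG
    exact ⟨f, hf, h1, fun _ => h2, h3⟩
  tfae_have 2 → 3 := by
    rintro ⟨f, hf, h1, h2, h3⟩
    exact ⟨algebraMap K Ω f, Pool.Agent.Helper14.BSC.Gen.top_range hf, fun g => (s g).commutes f,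
      h1, h2, h3⟩
  tfae_have 3 → 1 := by
    rintro ⟨f, hfk, hf, h1, h2, A, hA, h3⟩
    exact Pool.Agent.Helper27.AD.fin_main k₁ htr s hs m hm f hf hfk h1 h2 A hA h3
  tfae_finish

end Pool.Agent.Results.MP_8312c9_nt.AdelicSections
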