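import Mathlib
import Pool.Agent.Helper18.NF.All3

/-!
# Geometric sections over number fields, rational dynamics and divisible points

`k` is a number field, `K/k` a regular function field of one variable, `Ω` an algebraic closure of `K`,
`kb` the algebraic closure of `k` in `Ω`, `s` a section of `Gal(Ω/K) → Gal(kb/k)`.
-/

set_option autoImplicit false

namespace Pool.Agent.Results.MP_8312c9_nt.BackwardOrbits

open Polynomial

/-- `s` is a section of the birational Galois group of `K/k` (the hypotheses of S17615). -/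
def IsSection {k K kb Ω : Type} [Field k] [Field K] [Field kb] [Field Ω] [Algebra k kb] [Algebra kb Ω]
    [Algebra K Ω] (s : (kb ≃ₐ[k] kb) →* (Ω ≃ₐ[K] Ω)) : Prop :=
  Continuous s ∧ ∀ (g : kb ≃ₐ[k] kb) (x : kb), s g (algebraMap kb Ω x) = algebraMap kb Ω (g x)

/-- `s` is geometric and arises from a unique rational point (the conclusion of S17615). -/
def IsGeometric {k K kb Ω : Type} [Field k] [Field K] [Field kb] [Field Ω] [Algebra k K] [Algebra k kb]
    [Algebra K Ω] (s : (kb ≃ₐ[k] kb) →* (Ω ≃ₐ[K] Ω)) : Prop :=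
  ∃! O : ValuationSubring K,
    O ≠ ⊤ ∧ (∀ c : k, algebraMap k K c ∈ O) ∧
    (∀ a ∈ O, ∃ c : k, O.valuation (a - algebraMap k K c) < 1) ∧
    ∃ W : ValuationSubring Ω, W.comap (algebraMap K Ω) = O ∧
      ∀ (g : kb ≃ₐ[k] kb) (x : Ω), (s g x ∈ W ↔ x ∈ W)

/-- `x` lies in the fixed field of `s (Gal(kb/k'))`. -/
def InFix {k K kb Ω : Type} [Field k] [Field K] [Field kb] [Field Ω] [Algebra k kb] [Algebra K Ω]
    (s : (kb ≃ₐ[k] kb) →* (Ω ≃ₐ[K] Ω)) (k' : IntermediateField k kb) (x : Ω) : Prop :=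
  ∀ g : kb ≃ₐ[k] kb, (∀ c ∈ k', g c = c) → s g x = x

/-- The norm to `k₁` of the Kummer class `s^*(x)` is rational: it is the class of an element `r` of
`k₁^×`, i.e. for every `N > 0` one has `x = c g^N` with `c ∈ k^×`, `g` fixed by `s`, and
`N_{k/k₁}(c) ∈ r k₁^N`. -/
def NormRat {k K kb Ω : Type} [Field k] [Field K] [Field kb] [Field Ω] [Algebra k kb] [Algebra k Ω]
    [Algebra K Ω] (k₁ : Type) [Field k₁] [Algebra k₁ k]
    (s : (kb ≃ₐ[k] kb) →* (Ω ≃ₐ[K] Ω)) (x : Ω) : Prop :=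
  ∃ r : k₁, r ≠ 0 ∧ ∀ n : ℕ, 0 < n → ∃ c : k, c ≠ 0 ∧ ∃ g : Ω, (∀ σ, s σ g = g) ∧
    x = algebraMap k Ω c * g ^ n ∧ ∃ t : k₁, Algebra.norm k₁ c = r * t ^ n

open WeierstrassCurve.Affine

/-- the curve `E : y² = x³ + a x + b` -/
def E {k : Type} [Field k] (a b : k) : WeierstrassCurve.Affine k :=
  { a₁ := 0, a₂ := 0, a₃ := 0, a₄ := a, a₆ := b }

open Classical in
/-- the point `R` of `E : y² = x³ + a x + b` over `Ω` is `n` times a finite point over the fixed field of
`s (Gal(kb/k'))` -/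
def DivPt {k K kb Ω : Type} [Field k] [Field K] [Field kb] [Field Ω] [Algebra k kb] [Algebra kb Ω]
    [Algebra K Ω] (s : (kb ≃ₐ[k] kb) →* (Ω ≃ₐ[K] Ω)) (k' : IntermediateField k kb) {a b : k'}
    (n : ℕ) (R : ((E a b)⁄Ω).Point) : Prop :=
  ∃ (x y : Ω) (h : ((E a b)⁄Ω).Nonsingular x y), InFix s k' x ∧ InFix s k' y ∧
    n • Point.some x y h = R

/-- Let `k` be a number field, `k₁` a subfield, `K/k` a regular function field of one variable, `s` a
section, `M` its fixed field, `M(k')` the fixed field of `s (Gal(kb/k'))`. Equivalent: (1) `s` is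
geometric (from a unique rational point); (2) for some finite `k'/k` and some rational map `δ = A / B` of
degree `≥ 2` over `k'`, some nonconstant `f` has `δ`-backward orbits of every length in `M(k')`; (3) for
some finite `k'/k` and ONE prime `p`, some nonconstant `f` is a `p^N`-th power in `M(k')` for every `N`;
(4) some `f ∈ K \ k` is an `n`-th power in `M` for all `n > 0`; (5) for some finite `k'/k`, one prime `p`
and one elliptic curve `E/k'` some nonconstant point of `E(Ω)` lies in `p^N E(M(k'))` for every `N`; (6)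
for every finite `k'/k` and every elliptic curve `E/k'` some nonconstant point lies in `n E(M(k'))` for
every `n > 0`; (7) for some `f ∈ M \ k` and `[k : k₁]` distinct `c ∈ k₁` the Kummer classes `s^*(f - c)`
have rational norm to `k₁`. -/
theorem result (k : Type) [Field k] [NumberField k]
    (k₁ : Type) [Field k₁] [Algebra k₁ k] [FiniteDimensional k₁ k]
    (K : Type) [Field K] [Algebra k K] (_hK : (⊤ : IntermediateField k K).FG)
    (htr : ∃ t : K, Transcendental k t ∧ Algebra.IsAlgebraic (IntermediateField.adjoin k {t}) K)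
    (_hreg : ∀ x : K, IsAlgebraic k x → x ∈ (algebraMap k K).range)
    (kb Ω : Type) [Field kb] [Field Ω] [Algebra k kb] [Algebra kb Ω] [Algebra k Ω] [Algebra K Ω]
    [IsScalarTower k kb Ω] [IsScalarTower k K Ω] [IsAlgClosure k kb] [IsAlgClosure K Ω]
    (s : (kb ≃ₐ[k] kb) →* (Ω ≃ₐ[K] Ω)) (hs : IsSection s) :
    List.TFAE [
      IsGeometric s,
      ∃ k' : IntermediateField k kb, FiniteDimensional k k' ∧ ∃ A B : k'[X], IsCoprime A B ∧
        2 ≤ max A.natDegree B.natDegree ∧ ∃ f : Ω, Transcendental k f ∧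
          ∀ N : ℕ, ∃ g : Ω, InFix s k' g ∧ (fun x : Ω => aeval x A / aeval x B)^[N] g = f,
      ∃ k' : IntermediateField k kb, FiniteDimensional k k' ∧ ∃ p : ℕ, p.Prime ∧
        ∃ f : Ω, Transcendental k f ∧ ∀ N : ℕ, ∃ g : Ω, InFix s k' g ∧ g ^ p ^ N = f,
      ∃ f : K, f ∉ (algebraMap k K).range ∧
        ∀ n : ℕ, 0 < n → ∃ g : Ω, (∀ σ, s σ g = g) ∧ g ^ n = algebraMap K Ω f,
      ∃ k' : IntermediateField k kb, FiniteDimensional k k' ∧ ∃ p : ℕ, p.Prime ∧
        ∃ a b : k', 4 * a ^ 3 + 27 * b ^ 2 ≠ 0 ∧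
          ∃ (x y : Ω) (h : ((E a b)⁄Ω).Nonsingular x y), Transcendental k x ∧
            ∀ N : ℕ, DivPt s k' (p ^ N) (Point.some x y h),
      ∀ k' : IntermediateField k kb, FiniteDimensional k k' →
        ∀ a b : k', 4 * a ^ 3 + 27 * b ^ 2 ≠ 0 →
          ∃ (x y : Ω) (h : ((E a b)⁄Ω).Nonsingular x y), Transcendental k x ∧
            ∀ n : ℕ, 0 < n → DivPt s k' n (Point.some x y h),
      ∃ f : Ω, (∀ g, s g f = f) ∧ f ∉ (algebraMap k Ω).range ∧
        ∃ A : Finset k₁, A.card = Module.finrank k₁ k ∧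
          ∀ c ∈ A, NormRat k₁ s (f - algebraMap k Ω (algebraMap k₁ k c))] := by
  have : IsAlgClosed Ω := IsAlgClosure.isAlgClosed K
  have : Algebra.IsAlgebraic K Ω := IsAlgClosure.isAlgebraic
  have : CharZero Ω := charZero_of_injective_algebraMap (algebraMap k Ω).injective
  have hk : (⊤ : IntermediateField ℚ k).FG := by
    rw [IntermediateField.fg_top_iff]
    infer_instance
  have h7 := Pool.Agent.Helper14.BSC.Gen.top_one Pool.Agent.Helper14.BSC.all_ONE
    Pool.Agent.Helper14.BSC.all_IFD Pool.Agent.Helper14.BSC.all_UNI Pool.Agent.Helper14.BSC.all_ALG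
    Pool.Agent.Helper14.BSC.all_CNV hk k₁ htr s hs
  tfae_have 1 ↔ 7 := h7.2
  tfae_have 1 → 4 := by
    intro hG
    obtain ⟨f, hf, h⟩ := Pool.Agent.Helper18.NF.all_conv s hs hG
    refine ⟨f, hf, fun n hn => ?_⟩
    obtain ⟨g, hg, hfg⟩ := h n hn
    exact ⟨g, hg, hfg.symm⟩
  tfae_have 4 → 3 := by
    rintro ⟨f, hf, h⟩
    refine ⟨⊥, inferInstance, 2, Nat.prime_two, algebraMap K Ω f, ?_, fun N => ?_⟩
    · intro halg
      exact hf (_hreg f ((isAlgebraic_algebraMap_iff (algebraMap K Ω).injective).1 halg))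
    · obtain ⟨g, hg, hgf⟩ := h _ (pow_pos two_pos N)
      exact ⟨g, fun σ _ => hg σ, hgf⟩
  tfae_have 3 → 2 := by
    rintro ⟨k', hk', p, hp, f, hf, h⟩
    refine ⟨k', hk', X ^ p, 1, isCoprime_one_right, ?_, f, hf, fun N => ?_⟩
    · rw [natDegree_X_pow]
      exact le_max_of_le_left hp.two_le
    · obtain ⟨g, hg, hgf⟩ := h N
      refine ⟨g, hg, ?_⟩
      rw [← hgf]
      have h1 : ∀ (N : ℕ) (g : Ω),
          (fun x : Ω => aeval x (X ^ p : k'[X]) / aeval x (1 : k'[X]))^[N] g = g ^ p ^ N := by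
        intro N
        induction N with
        | zero => intro g; rw [pow_zero, pow_one]; rfl
        | succ N ih =>
          intro g
          rw [Function.iterate_succ_apply, ih, map_pow, aeval_X, map_one, div_one, ← pow_mul,
            pow_succ' p N]
      exact h1 N g
  tfae_have 2 → 1 := by
    rintro ⟨k', hk', A, B, h1, h2, f, hf, hb⟩
    exact Pool.Agent.Helper18.NF.all_any htr s hs k' A B h1 h2 f hf hb
  tfae_have 1 → 6 := by
    intro hG k' _ a b hΔ
    obtain ⟨x, y, hxy, hx, h⟩ := Pool.Agent.Helper18.NF.all_geok s hs hG k' a b hΔ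
    refine ⟨x, y, Pool.Agent.Helper18.NF.SW_nonsingular hΔ hxy, hx, fun n hn => ?_⟩
    obtain ⟨x', y', h', hx', hy', he⟩ := h n hn
    exact ⟨x', y', Pool.Agent.Helper18.NF.SW_nonsingular hΔ h', hx', hy', he⟩
  tfae_have 6 → 5 := by
    intro h
    have : CharZero (⊥ : IntermediateField k kb) :=
      charZero_of_injective_algebraMap (algebraMap k (⊥ : IntermediateField k kb)).injective
    have hΔ : 4 * (1 : (⊥ : IntermediateField k kb)) ^ 3 + 27 * 0 ^ 2 ≠ 0 := by norm_num
    obtain ⟨x, y, hxy, hx, h'⟩ := h ⊥ inferInstance 1 0 hΔ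
    exact ⟨⊥, inferInstance, 2, Nat.prime_two, 1, 0, hΔ, x, y, hxy, hx,
      fun N => h' _ (pow_pos two_pos N)⟩
  tfae_have 5 → 1 := by
    rintro ⟨k', hk', p, hp, a, b, hΔ, x, y, hxy, hx, h⟩
    have hE := (Pool.Agent.Helper18.NF.SW_equation_iff x y).1 hxy.1
    refine Pool.Agent.Helper18.NF.all_divk htr s hs k' a b hΔ p hp.two_le x y hE hx fun N => ?_
    obtain ⟨x', y', h', hx', hy', he⟩ := h N
    exact ⟨x', y', (Pool.Agent.Helper18.NF.SW_equation_iff x' y').1 h'.1, hx', hy', he⟩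
  tfae_finish

end Pool.Agent.Results.MP_8312c9_nt.BackwardOrbits
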