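import Mathlib
import Pool.Agent.Helper18.NF.All3

/-!
# The birational section conjecture and elliptic curves with finite `p`-power Selmer group, one prime

`k` is a number field, `K/k` a regular function field of one variable, `Ω` an algebraic closure of `K`,
`kb` the algebraic closure of `k` in `Ω`, `s` a section of `Gal(Ω/K) → Gal(kb/k)`.
-/

set_option autoImplicit false

namespace Pool.Agent.Results.MP_8312c9_nt.EllipticOnePrime

/-- `s` is a section of the birational Galois group of `K/k` (the hypotheses of S17615). -/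
def IsSection {k K kb Ω : Type} [Field k] [Field K] [Field kb] [Field Ω] [Algebra k kb] [Algebra kb Ω]
    [Algebra K Ω] (s : (kb ≃ₐ[k] kb) →* (Ω ≃ₐ[K] Ω)) : Prop :=
  Continuous s ∧ ∀ (g : kb ≃ₐ[k] kb) (x : kb), s g (algebraMap kb Ω x) = algebraMap kb Ω (g x)

/-- `s` is geometric and arises from a unique rational point (the conclusion of S17615). -/
def IsGeometric {k K kb Ω : Type} [Field k] [Field K] [Field kb] [Field Ω] [Algebra k K] [Algebra k kb]
    [Algebra K Ω] (s : (kb ≃ₐ[k] kb) →* (Ω ≃ₐ[K] Ω)) : Prop :=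
  ∃! O : ValuationSubring K,
    O ≠ ⊤ ∧ (∀ c : k, algebraMap k K c ∈ O) ∧
    (∀ a ∈ O, ∃ c : k, O.valuation (a - algebraMap k K c) < 1) ∧
    ∃ W : ValuationSubring Ω, W.comap (algebraMap K Ω) = O ∧
      ∀ (g : kb ≃ₐ[k] kb) (x : Ω), (s g x ∈ W ↔ x ∈ W)

section Selmer

open WeierstrassCurve.Affine

/-- the curve `E : y² = x³ + a x + b` -/
def E {k : Type} [Field k] (a b : k) : WeierstrassCurve.Affine k :=
  { a₁ := 0, a₂ := 0, a₃ := 0, a₄ := a, a₆ := b }

open Classical in
/-- `ξ` is a continuous `1`-cocycle of `Gal(kb/k)` with values in `E[m]` whose class lies in the Selmer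
group: at every finite place it becomes trivial in `H¹` of `E`, i.e. for every prime `ℓ` and every
embedding `ι : kb → ℂ_ℓ` there is `U ∈ E(ℂ_ℓ)` with `τ U - U = ι (ξ g)` for all isometric automorphisms
`τ` of `ℂ_ℓ` which extend an element `g` of `Gal(kb/k)` (these `g` form the decomposition group). -/
structure IsSelmer {k kb : Type} [Field k] [Field kb] [Algebra k kb] (a b : k) (m : ℕ)
    (ξ : (kb ≃ₐ[k] kb) → ((E a b)⁄kb).Point) : Prop where
  tors : ∀ g, m • ξ g = 0
  coc : ∀ g h, ξ (g * h) = ξ g + Point.map (W' := E a b) (g : kb →ₐ[k] kb) (ξ h)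
  cont : ∃ S : Finset kb, ∀ g : kb ≃ₐ[k] kb, (∀ c ∈ S, g c = c) → ξ g = 0
  loc : ∀ (l : ℕ) [Fact l.Prime] [Algebra k ℂ_[l]] (ι : kb →ₐ[k] ℂ_[l]), ∃ U : ((E a b)⁄ℂ_[l]).Point,
    ∀ (g : kb ≃ₐ[k] kb) (τ : ℂ_[l] ≃ₐ[k] ℂ_[l]), (∀ z, ‖τ z‖ = ‖z‖) → (∀ c, τ (ι c) = ι (g c)) →
      Point.map (W' := E a b) (τ : ℂ_[l] →ₐ[k] ℂ_[l]) U = U + Point.map (W' := E a b) ι (ξ g)

open Classical in
/-- the `p`-power Selmer groups of `E : y² = x³ + a x + b` over `k` have bounded exponent: some `e > 0`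
kills the class of every Selmer cocycle with values in `E[p^N]`, for all `N`. -/
def BddSelmer {k : Type} [Field k] (kb : Type) [Field kb] [Algebra k kb] (a b : k) (p : ℕ) : Prop :=
  ∃ e : ℕ, 0 < e ∧ ∀ (N : ℕ) (ξ : (kb ≃ₐ[k] kb) → ((E a b)⁄kb).Point), IsSelmer a b (p ^ N) ξ →
    ∃ t : ((E a b)⁄kb).Point, p ^ N • t = 0 ∧
      ∀ g : kb ≃ₐ[k] kb, e • ξ g = Point.map (W' := E a b) (g : kb →ₐ[k] kb) t - t

theorem bdd_iff {k : Type} [Field k] (kb : Type) [Field kb] [Algebra k kb] (a b : k) (p : ℕ) :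
    BddSelmer kb a b p → Pool.Agent.Helper18.NF.BddSelmer kb a b p := by
  rintro ⟨e, he, h⟩
  exact ⟨e, he, fun N ξ hξ => h N ξ ⟨hξ.tors, hξ.coc, hξ.cont, hξ.loc⟩⟩

end Selmer

/-- Let `k` be a number field, `K/k` a regular function field of one variable, `k'/k` a finite extension
and `E : y² = x³ + a x + b` an elliptic curve over `k'` whose `p`-power Selmer groups have bounded
exponent for ONE prime `p`.  A section `s` is geometric (and then arises from a unique rational point) if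
and only if `E` has a nonconstant point over the fixed field of `s (Gal(kb/k'))`.  Such a point exists for
every section `s` if `E` has a nonconstant point over the compositum `K k'`, i.e. if the curve `X_{k'}`
has a nonconstant map to `E`. -/
theorem result (k : Type) [Field k] [NumberField k]
    (K : Type) [Field K] [Algebra k K] (_hK : (⊤ : IntermediateField k K).FG)
    (htr : ∃ t : K, Transcendental k t ∧ Algebra.IsAlgebraic (IntermediateField.adjoin k {t}) K)
    (_hreg : ∀ x : K, IsAlgebraic k x → x ∈ (algebraMap k K).range)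
    (kb Ω : Type) [Field kb] [Field Ω] [Algebra k kb] [Algebra kb Ω] [Algebra k Ω] [Algebra K Ω]
    [IsScalarTower k kb Ω] [IsScalarTower k K Ω] [IsAlgClosure k kb] [IsAlgClosure K Ω]
    (k' : IntermediateField k kb) [FiniteDimensional k k']
    (a b : k') (hΔ : 4 * a ^ 3 + 27 * b ^ 2 ≠ 0) (p : ℕ) (hp : p.Prime) (hB : BddSelmer kb a b p)
    (s : (kb ≃ₐ[k] kb) →* (Ω ≃ₐ[K] Ω)) (hs : IsSection s) :
    IsGeometric s ↔ ∃ x y : Ω, y ^ 2 = x ^ 3 + algebraMap kb Ω a * x + algebraMap kb Ω b ∧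
      Transcendental k x ∧
        ∀ g : kb ≃ₐ[k] kb, (∀ c ∈ k', g c = c) → s g x = x ∧ s g y = y := by
  have : IsAlgClosed Ω := IsAlgClosure.isAlgClosed K
  have : Algebra.IsAlgebraic K Ω := IsAlgClosure.isAlgebraic
  have : CharZero Ω := charZero_of_injective_algebraMap (algebraMap k Ω).injective
  constructor
  · intro hG
    obtain ⟨x, y, hxy, hx, h⟩ := Pool.Agent.Helper18.NF.all_geok s hs hG k' a b hΔ
    obtain ⟨x', y', h', hx', hy', he⟩ := h 1 one_pos
    rw [one_smul] at he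
    obtain ⟨h1, h2⟩ := Pool.Agent.Helper18.NF.EP.pt_inj hΔ he
    subst h1 h2
    exact ⟨x', y', hxy, hx, fun g hg => ⟨hx' g hg, hy' g hg⟩⟩
  · rintro ⟨x, y, hxy, hx, hfix⟩
    have hNF : NumberField k' := NumberField.of_module_finite k k'
    have : IsAlgClosure k' kb := Pool.Agent.Helper18.NF.icl k'
    have hfix' : ∀ g : kb ≃ₐ[k'] kb, s (g.restrictScalars k) x = x ∧ s (g.restrictScalars k) y = y :=
      fun g => hfix _ fun c hc => g.commutes ⟨c, hc⟩
    refine Pool.Agent.Helper18.NF.all_ellk k' htr s hs a b hΔ p hp.two_le (bdd_iff kb a b p hB)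
      x y (fun g => (hfix' g).1) (fun g => (hfix' g).2) hxy ?_
    rintro ⟨c, hc⟩
    apply hx
    rw [← hc]
    have hka : Algebra.IsAlgebraic k kb := IsAlgClosure.isAlgebraic
    have h1 : IsAlgebraic k (c : kb) := Algebra.IsAlgebraic.isAlgebraic _
    exact h1.algHom (IsScalarTower.toAlgHom k kb Ω)

end Pool.Agent.Results.MP_8312c9_nt.EllipticOnePrime
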