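import Mathlib
import Pool.Agent.Helper13.FF.All

/-!
# The birational section conjecture over finitely generated fields of positive transcendence degree

The statement is the frozen statement S17615 with one more hypothesis: `k` contains an element which is
transcendental over `ℚ`, i.e. `k` is not a number field.
-/

set_option autoImplicit false

namespace Pool.Agent.Results.MP_8312c9_nt.TranscendenceDegreeOne

/-- Let `k` be a finitely generated extension of `ℚ` which is not algebraic over `ℚ`, and let `K` be a
regular function field of one variable over `k`. Every continuous section of the map from the absolute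
Galois group of `K` to that of `k` is geometric: it fixes a valuation ring above exactly one degree-one
place of `K/k`, i.e. above exactly one rational point of the smooth projective curve. -/
theorem result :
  ∀ (k : Type) [Field k] [CharZero k], (⊤ : IntermediateField ℚ k).FG →
  (∃ x : k, Transcendental ℚ x) →
  ∀ (K : Type) [Field K] [Algebra k K], (⊤ : IntermediateField k K).FG →
  (∃ t : K, Transcendental k t ∧ Algebra.IsAlgebraic (IntermediateField.adjoin k {t}) K) →
  (∀ x : K, IsAlgebraic k x → x ∈ (algebraMap k K).range) →
  ∀ s : (algebraicClosure k (AlgebraicClosure K) ≃ₐ[k] algebraicClosure k (AlgebraicClosure K)) →*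
      (AlgebraicClosure K ≃ₐ[K] AlgebraicClosure K),
  Continuous s →
  (∀ (g : algebraicClosure k (AlgebraicClosure K) ≃ₐ[k] algebraicClosure k (AlgebraicClosure K))
     (x : algebraicClosure k (AlgebraicClosure K)),
     s g (x : AlgebraicClosure K) = ((g x : algebraicClosure k (AlgebraicClosure K)) : AlgebraicClosure K)) →
  ∃! O : ValuationSubring K,
    O ≠ ⊤ ∧ (∀ c : k, algebraMap k K c ∈ O) ∧
    (∀ a ∈ O, ∃ c : k, O.valuation (a - algebraMap k K c) < 1) ∧
    ∃ W : ValuationSubring (AlgebraicClosure K),
      W.comap (algebraMap K (AlgebraicClosure K)) = O ∧
      ∀ (g : algebraicClosure k (AlgebraicClosure K) ≃ₐ[k] algebraicClosure k (AlgebraicClosure K))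
        (x : AlgebraicClosure K), (s g x ∈ W ↔ x ∈ W) :=
  Pool.Agent.Helper13.FF.all_FINAL

end Pool.Agent.Results.MP_8312c9_nt.TranscendenceDegreeOne
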